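import Pool.Agent.P.MP_f981b0_an.IS52.Cutoff

/-! The bound `1 / l!` for iterated integration of polynomials, and the degree split. -/

set_option autoImplicit false

open Polynomial Finset
open scoped Nat

namespace IS55

open IS52

theorem sq_integral_le (g : ℝ → ℝ) (hg : Continuous g) (s : ℝ) (hs0 : 0 ≤ s) (hs1 : s ≤ 1) :
    (∫ u in (0:ℝ)..s, g u) ^ 2 ≤ s * ∫ u in (0:ℝ)..1, g u ^ 2 := by
  rcases hs0.eq_or_lt with rfl | hs
  · simp
  set a := ∫ u in (0:ℝ)..s, g u with ha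
  have h1 : 0 ≤ ∫ u in (0:ℝ)..s, (s * g u - a) ^ 2 :=
    intervalIntegral.integral_nonneg hs0 (fun _ _ => sq_nonneg _)
  have i1 : IntervalIntegrable (fun u => s ^ 2 * g u ^ 2) MeasureTheory.volume 0 s :=
    (continuous_const.mul (hg.pow 2)).intervalIntegrable _ _
  have i2 : IntervalIntegrable (fun u => (2 * s * a) * g u) MeasureTheory.volume 0 s :=
    (continuous_const.mul hg).intervalIntegrable _ _
  have h2 : ∫ u in (0:ℝ)..s, (s * g u - a) ^ 2 =
      s ^ 2 * (∫ u in (0:ℝ)..s, g u ^ 2) - s * a ^ 2 := by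
    have e : (fun u => (s * g u - a) ^ 2) =
        fun u => (s ^ 2 * g u ^ 2 - (2 * s * a) * g u) + a ^ 2 := by
      funext u; ring
    rw [e, intervalIntegral.integral_add (i1.sub i2) (by simp),
      intervalIntegral.integral_sub i1 i2, intervalIntegral.integral_const_mul,
      intervalIntegral.integral_const_mul]
    simp [← ha]; ring
  have h3 : ∫ u in (0:ℝ)..s, g u ^ 2 ≤ ∫ u in (0:ℝ)..1, g u ^ 2 :=
    intervalIntegral.integral_mono_interval le_rfl hs0 hs1
      (Filter.Eventually.of_forall fun _ => sq_nonneg _) ((hg.pow 2).intervalIntegrable _ _)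
  have h4 : s * a ^ 2 ≤ s * (s * ∫ u in (0:ℝ)..1, g u ^ 2) := by
    have := mul_le_mul_of_nonneg_left h3 (sq_nonneg s)
    nlinarith
  exact le_of_mul_le_mul_left h4 hs

/-- The pointwise constant. -/
noncomputable def cst (l : ℕ) : ℝ := ∏ j ∈ range l, ((j : ℝ) + 3 / 2)⁻¹

theorem cst_nonneg (l : ℕ) : 0 ≤ cst l := prod_nonneg fun _ _ => by positivity

theorem cst_sq (l : ℕ) : cst l ^ 2 ≤ (2 * l + 2) / (((l + 1)! : ℕ) : ℝ) ^ 2 := by
  induction l with
  | zero => simp [cst]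
  | succ l ih =>
    have hf : (0 : ℝ) < ((l + 1)! : ℕ) := by exact_mod_cast Nat.factorial_pos _
    rw [cst, prod_range_succ, ← cst, mul_pow, Nat.factorial_succ (l + 1)]
    refine (mul_le_mul_of_nonneg_right ih (sq_nonneg _)).trans ?_
    push_cast
    rw [inv_pow, ← div_eq_mul_inv, div_div, div_le_div_iff₀ (by positivity) (by positivity)]
    have hl : (0 : ℝ) ≤ l := Nat.cast_nonneg l
    have : (2 * (l : ℝ) + 2) * (l + 1 + 1) ^ 2 ≤ (2 * (l + 1) + 2) * (l + 3 / 2) ^ 2 := by nlinarith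
    have := mul_le_mul_of_nonneg_right this (sq_nonneg (((l + 1)! : ℕ) : ℝ))
    nlinarith

theorem dvd_deriv (P : ℂ[X]) (l : ℕ) (h : X ^ (l + 1) ∣ P) : X ^ l ∣ derivative P := by
  rw [X_pow_dvd_iff] at h ⊢
  intro d hd
  rw [coeff_derivative, h (d + 1) (by omega), zero_mul]

theorem eval_zero_of_dvd (P : ℂ[X]) (l : ℕ) (h : X ^ (l + 1) ∣ P) : P.eval 0 = 0 := by
  rw [← coeff_zero_eq_eval_zero]
  exact X_pow_dvd_iff.1 h 0 (by omega)

theorem pointwise (l : ℕ) : ∀ P : ℂ[X], X ^ (l + 1) ∣ P → ∀ s : ℝ, 0 ≤ s → s ≤ 1 →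
    ‖P.eval (s:ℂ)‖ ≤ cst l * L2 (derivative^[l + 1] P) * s ^ ((l : ℝ) + 1 / 2) := by
  induction l with
  | zero =>
    intro P h s hs0 hs1
    have hc : Continuous fun u : ℝ => ‖(derivative P).eval (u:ℂ)‖ := (cont_eval _).norm
    rw [eval_eq_integral P (eval_zero_of_dvd P 0 h) s]
    refine (intervalIntegral.norm_integral_le_integral_norm hs0).trans ?_
    have h1 := Real.le_sqrt_of_sq_le (sq_integral_le _ hc s hs0 hs1)
    rw [Real.sqrt_mul hs0, Real.sqrt_eq_rpow] at h1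
    simpa [cst, L2, mul_comm] using h1
  | succ l ih =>
    intro P h s hs0 hs1
    have hc : Continuous fun u : ℝ => ‖(derivative P).eval (u:ℂ)‖ := (cont_eval _).norm
    have hl : (0 : ℝ) ≤ l := Nat.cast_nonneg l
    rw [eval_eq_integral P (eval_zero_of_dvd P _ h) s]
    refine (intervalIntegral.norm_integral_le_integral_norm hs0).trans ?_
    have h1 : ∫ u in (0:ℝ)..s, ‖(derivative P).eval (u:ℂ)‖ ≤
        ∫ u in (0:ℝ)..s, cst l * L2 (derivative^[l + 1] (derivative P)) * u ^ ((l : ℝ) + 1 / 2) := by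
      refine intervalIntegral.integral_mono_on hs0 (hc.intervalIntegrable _ _)
        ((intervalIntegral.intervalIntegrable_rpow' (by linarith)).const_mul _) fun u hu => ?_
      exact ih _ (dvd_deriv P _ h) u hu.1 (hu.2.trans hs1)
    refine h1.trans (le_of_eq ?_)
    rw [intervalIntegral.integral_const_mul, integral_rpow (Or.inl (by linarith)),
      Real.zero_rpow (by linarith), sub_zero, ← Function.iterate_succ_apply, cst, cst,
      prod_range_succ]
    push_cast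
    rw [show (l : ℝ) + 1 / 2 + 1 = l + 1 + 1 / 2 by ring, show (l : ℝ) + 3 / 2 = l + 1 + 1 / 2 by ring]
    ring

/-- `|V^l| ≤ 1 / l!` on polynomials. -/
theorem vpow (P : ℂ[X]) (l : ℕ) (h : X ^ l ∣ P) : L2 P ≤ L2 (derivative^[l] P) / (l ! : ℝ) := by
  cases l with
  | zero => simp
  | succ l =>
    set M := L2 (derivative^[l + 1] P) with hM
    have hM0 : 0 ≤ M := L2_nonneg _
    have hf : (0 : ℝ) < ((l + 1)! : ℕ) := by exact_mod_cast Nat.factorial_pos _
    have h1 : ∫ s in (0:ℝ)..1, ‖P.eval (s:ℂ)‖ ^ 2 ≤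
        ∫ s in (0:ℝ)..1, (cst l * M) ^ 2 * s ^ (2 * l + 1) := by
      refine intervalIntegral.integral_mono_on (by norm_num)
        (((cont_eval P).norm.pow 2).intervalIntegrable _ _)
        ((continuous_const.mul (continuous_pow _)).intervalIntegrable _ _) fun s hs => ?_
      have h2 := pointwise l P h s hs.1 hs.2
      have h3 : (s ^ ((l : ℝ) + 1 / 2)) ^ 2 = s ^ (2 * l + 1) := by
        rw [← Real.rpow_natCast, ← Real.rpow_mul hs.1, ← Real.rpow_natCast]
        congr 1; push_cast; ring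
      rw [← h3, ← mul_pow]
      exact pow_le_pow_left₀ (norm_nonneg _) h2 2
    rw [intervalIntegral.integral_const_mul, integral_pow] at h1
    rw [L2]
    apply Real.sqrt_le_iff.2 ⟨by positivity, h1.trans ?_⟩
    have h4 := mul_le_mul_of_nonneg_right (cst_sq l) (sq_nonneg M)
    have hl : (0 : ℝ) < 2 * l + 2 := by positivity
    rw [one_pow, zero_pow (by omega), sub_zero, mul_pow, div_pow]
    push_cast at h4 ⊢
    rw [show 2 * (l : ℝ) + 1 + 1 = 2 * l + 2 by ring, mul_one_div, div_le_iff₀ hl]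
    refine h4.trans (le_of_eq ?_)
    ring

section Split

variable {B : Type*} [NormedAddCommGroup B] [NormedSpace ℂ B]

/-- Powers on the high part. -/
theorem high (A : B →L[ℂ] B) (p : ℕ → B →L[ℂ] B) (q : ℝ) (m0 : ℕ) (hq : 0 ≤ q)
    (hp : ∀ m, ‖1 - p m‖ ≤ 1)
    (hband : ∀ m, p m * A * (1 - p (m + 1)) = 0)
    (hA : ∀ m, m0 ≤ m → ‖A * (1 - p m)‖ ≤ q) (N : ℕ) :
    ∀ m, m0 ≤ m → ‖A ^ N * (1 - p (m + N))‖ ≤ q ^ N := by
  induction N with
  | zero => intro m _; simpa using hp m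
  | succ N ih =>
    intro m hm
    have e : A ^ (N + 1) * (1 - p (m + (N + 1))) =
        A ^ N * (1 - p (m + N)) * (A * (1 - p (m + N + 1))) := by
      have := hband (m + N)
      rw [mul_assoc (A ^ N), sub_mul, one_mul, ← mul_assoc (p (m + N)), this, sub_zero,
        ← mul_assoc, ← pow_succ, add_assoc]
    rw [e, pow_succ]
    exact (norm_mul_le _ _).trans
      (mul_le_mul (ih m hm) (hA _ (by omega)) (norm_nonneg _) (pow_nonneg hq _))

/-- The degree split. -/
theorem split (A : B →L[ℂ] B) (p : ℕ → B →L[ℂ] B) (q c : ℝ) (m0 N : ℕ) (hq : 0 ≤ q)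
    (hp : ∀ m, ‖1 - p m‖ ≤ 1)
    (hband : ∀ m, p m * A * (1 - p (m + 1)) = 0)
    (hA : ∀ m, m0 ≤ m → ‖A * (1 - p m)‖ ≤ q) (hc : ‖A ^ N * p (m0 + N)‖ ≤ c) :
    ‖A ^ N‖ ≤ c + q ^ N := by
  have e : A ^ N = A ^ N * p (m0 + N) + A ^ N * (1 - p (m0 + N)) := by
    rw [← mul_add, add_sub_cancel, mul_one]
  calc ‖A ^ N‖ = ‖A ^ N * p (m0 + N) + A ^ N * (1 - p (m0 + N))‖ := by rw [← e]
    _ ≤ _ := (norm_add_le _ _).trans
      (add_le_add hc (high A p q m0 hq hp hband hA N m0 le_rfl))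

end Split

end IS55
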